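import Pool.Agent.Helper63.SV.Fin1

/-!
# Closed complete affine manifolds with weakly commensurated abelian subgroups

Let `M = E / Γ` be a closed complete affine manifold. Suppose that a subgroup `H` of finite index of
`Γ = π₁(M)` has a nontrivial abelian subgroup `A` which it weakly commensurates: for all `γ` in `H`
and `a` in `A`, some power `γ a ^ m γ⁻¹` (`m ≥ 1`) of the conjugate lies in `A`. (For instance, `A`
is normal in `H`; so `A` can be the last nontrivial derived subgroup of a solvable normal subgroup
of `H`.) Then the simplicial volume of `M` is zero; more precisely, if `A` contains a free abelian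
group of rank `r`, then the `ℓ¹`-seminorm of all real homology classes of degree greater than
`dim M - max 1 r` is zero.

The proof: the vectors of `E × ℝ` on which all elements of `A` have roots of unity as (generalized)
eigenvalues form an `H`-invariant subspace, which meets the affine space in an affine subspace
`E₁`. The logarithms of the unipotent elements of `A` on `E₁` span a vector group `U` of unipotent
affine maps normalized by `H`, which acts freely and in which `A` is virtually a lattice. The
orbits of `U` define a covering of `E₁ / H` by amenable cells, of multiplicity at most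
`dim E₁ - dim U + 1`, and bounded cocycles of degree greater than `dim E₁ - dim U` can be averaged
over the cells; they vanish on cycles after iterated barycentric subdivision.
-/

set_option autoImplicit false

open Set

namespace Pool.Agent.Results.MP_f22a19_gt.CommensuratedAbelian

/-- the standard simplex of dimension `k` -/
abbrev Simplex (k : ℕ) : Type := stdSimplex ℝ (Fin (k + 1))

/-- real singular chains of degree `k` of the space `M` -/
abbrev Chain (k : ℕ) (M : Type) [TopologicalSpace M] : Type := C(Simplex k, M) →₀ ℝ

/-- the inclusion of the face opposite to the vertex `i` -/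
noncomputable def face {k : ℕ} (i : Fin (k + 2)) : C(Simplex k, Simplex (k + 1)) :=
  ⟨stdSimplex.map i.succAbove, stdSimplex.continuous_map _⟩

/-- the boundary of singular chains -/
noncomputable def bdry {M : Type} [TopologicalSpace M] (k : ℕ) : Chain (k + 1) M →ₗ[ℝ] Chain k M :=
  Finsupp.linearCombination ℝ fun σ =>
    ∑ i : Fin (k + 2), ((-1 : ℝ) ^ (i : ℕ)) • Finsupp.single (σ.comp (face i)) 1

/-- the `ℓ¹`-norm of a singular chain: the sum of the absolute values of its coefficients -/
noncomputable def norm1 {M : Type} [TopologicalSpace M] {k : ℕ} (c : Chain k M) : ℝ :=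
  ∑ σ ∈ c.support, |c σ|

/-- The `ℓ¹`-seminorm of the homology class of a cycle `z`: the infimum of the norms of the
homologous cycles. For a fundamental cycle of a closed oriented manifold this is the simplicial
volume. -/
noncomputable def seminorm1 {k : ℕ} {M : Type} [TopologicalSpace M] (z : Chain (k + 1) M) : ℝ :=
  ⨅ c : Chain (k + 2) M, norm1 (z + bdry (k + 1) c)

/-- **Vanishing for complete affine manifolds with a weakly commensurated abelian subgroup.** Let
the group `Γ` act on the finite-dimensional real vector space `E` by affine automorphisms, freely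
and properly discontinuously with compact quotient `M = E / Γ`: so `M` is any closed complete affine
manifold. Let `H` be a subgroup of finite index of `Γ`, and `A ≠ 1` an abelian subgroup of `H` such
that for all `γ` in `H` and `a` in `A` some `γ a ^ m γ⁻¹` with `m ≥ 1` lies in `A`. Let `A` contain
a free abelian group of rank `r` (the image of `φ`; one can always take `r = 0`). Then the
`ℓ¹`-seminorm of every real homology class of `M` of degree `k + 1 > dim E - max 1 r` is zero; in
particular (`k + 1 = dim E`) the simplicial volume of `M` is zero. -/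
theorem result (Γ E : Type) [Group Γ] [NormedAddCommGroup E] [NormedSpace ℝ E]
    [FiniteDimensional ℝ E] [MulAction Γ E]
    (haff : ∀ γ : Γ, ∃ f : E ≃ᵃ[ℝ] E, ∀ x : E, γ • x = f x)
    (hfree : ∀ (γ : Γ) (x : E), γ • x = x → γ = 1)
    (hprop : ∀ K : Set E, IsCompact K → {γ : Γ | ∃ x ∈ K, γ • x ∈ K}.Finite)
    (hcpt : CompactSpace (MulAction.orbitRel.Quotient Γ E))
    (H : Subgroup Γ) (hH : H.FiniteIndex) (A : Subgroup Γ) (hAH : A ≤ H) (hA : A ≠ ⊥)
    (hab : ∀ a ∈ A, ∀ b ∈ A, a * b = b * a)
    (hcom : ∀ γ ∈ H, ∀ a ∈ A, ∃ m : ℕ, 0 < m ∧ γ * a ^ m * γ⁻¹ ∈ A)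
    (r : ℕ) (φ : Multiplicative (Fin r → ℤ) →* Γ) (hφ : Function.Injective φ)
    (hφA : ∀ m, φ m ∈ A) (k : ℕ) (hk : Module.finrank ℝ E < k + 1 + max 1 r)
    (z : Chain (k + 1) (MulAction.orbitRel.Quotient Γ E)) (hz : bdry k z = 0) :
    seminorm1 z = 0 := by
  have haff' : ∀ γ : Γ, ∃ f : E →ᵃ[ℝ] E, ∀ x : E, γ • x = f x := by
    intro γ
    obtain ⟨f, hf⟩ := haff γ
    exact ⟨f, hf⟩
  have h := Helper63.SV.main_ab haff' hfree hprop hcpt H hH A hAH hA hab hcom r φ hφ hφA k hk
  have hnn : ∀ c : Chain (k + 2) (MulAction.orbitRel.Quotient Γ E),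
      0 ≤ norm1 (z + bdry (k + 1) c) := fun c => Finset.sum_nonneg fun _ _ => abs_nonneg _
  refine le_antisymm (le_of_forall_gt fun ε hε => ?_) (Real.iInf_nonneg hnn)
  obtain ⟨c, hc⟩ := h z hz ε hε
  exact lt_of_le_of_lt (ciInf_le ⟨0, by rintro _ ⟨c, rfl⟩; exact hnn c⟩ c) hc

end Pool.Agent.Results.MP_f22a19_gt.CommensuratedAbelian
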