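import Pool.Agent.Helper63.SV.Cen

/-!
# Closed convex affine manifolds with central elements in the fundamental group

Let `M = X / Γ` be a closed convex affine manifold: `X` is an open convex subset of the
finite-dimensional real vector space `E`, and `Γ = π₁(M)` acts on it by affine automorphisms of `E`,
freely and properly discontinuously with compact quotient. Suppose that a subgroup `H` of finite
index of `Γ` contains a free abelian group `A` of rank `r` in its centre. Then the `ℓ¹`-seminorm of
all real homology classes of degree greater than `dim M - r` is zero; in particular, if `r ≥ 1`,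
then the simplicial volume of `M` is zero.

The proof: the squares of the elements of `A`, as linear maps of `E × ℝ`, have logarithms in the
algebra generated by `A`. The flows of these commute with `H`, so they preserve `X`, since `H` is
cocompact; so they give a free and proper action of the vector group `ℝ ^ r` on `X` which commutes
with `H` and extends the action of the squares of `A`. The orbits of the vector group define a
covering of `X / H` by amenable cells, of multiplicity at most `dim E - r + 1`, and bounded cocycles
of degree greater than `dim E - r` can be averaged over the cells; they vanish on cycles after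
iterated barycentric subdivision.
-/

set_option autoImplicit false

open Set

namespace Pool.Agent.Results.MP_f22a19_gt.ConvexCentral

/-- the standard simplex of dimension `k` -/
abbrev Simplex (k : ℕ) : Type := stdSimplex ℝ (Fin (k + 1))

/-- real singular chains of degree `k` of the space `M` -/
abbrev Chain (k : ℕ) (M : Type) [TopologicalSpace M] : Type := C(Simplex k, M) →₀ ℝ

/-- the inclusion of the face opposite to the vertex `i` -/
noncomputable def face {k : ℕ} (i : Fin (k + 2)) : C(Simplex k, Simplex (k + 1)) :=
  ⟨stdSimplex.map i.succAbove, stdSimplex.continuous_map _⟩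

/-- the boundary of singular chains -/
noncomputable def bdry {M : Type} [TopologicalSpace M] (k : ℕ) : Chain (k + 1) M →ₗ[ℝ] Chain k M :=
  Finsupp.linearCombination ℝ fun σ =>
    ∑ i : Fin (k + 2), ((-1 : ℝ) ^ (i : ℕ)) • Finsupp.single (σ.comp (face i)) 1

/-- the `ℓ¹`-norm of a singular chain: the sum of the absolute values of its coefficients -/
noncomputable def norm1 {M : Type} [TopologicalSpace M] {k : ℕ} (c : Chain k M) : ℝ :=
  ∑ σ ∈ c.support, |c σ|

/-- The `ℓ¹`-seminorm of the homology class of a cycle `z`: the infimum of the norms of the
homologous cycles. For a fundamental cycle of a closed oriented manifold this is the simplicial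
volume. -/
noncomputable def seminorm1 {k : ℕ} {M : Type} [TopologicalSpace M] (z : Chain (k + 1) M) : ℝ :=
  ⨅ c : Chain (k + 2) M, norm1 (z + bdry (k + 1) c)

/-- **Vanishing for closed convex affine manifolds with virtually central elements.** Let `X` be an
open convex subset of the finite-dimensional real vector space `E`, and let the group `Γ` act on `X`
by restrictions of affine automorphisms of `E`, freely and properly discontinuously with compact
quotient `M = X / Γ`. Let `H` be a subgroup of finite index of `Γ` and let `φ : ℤ ^ r → H` be an
injective homomorphism whose image is in the centre of `H`. Then the `ℓ¹`-seminorm of every real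
homology class of `M` of degree `k + 1 > dim E - r` is zero; in particular (`k + 1 = dim E`,
`r ≥ 1`) the simplicial volume of `M` is zero. -/
theorem result (Γ E : Type) [Group Γ] [NormedAddCommGroup E] [NormedSpace ℝ E]
    [FiniteDimensional ℝ E] (X : Set E) (hXo : IsOpen X) (hXc : Convex ℝ X) [MulAction Γ X]
    (hol : Γ →* (E ≃ᵃ[ℝ] E)) (hact : ∀ (γ : Γ) (x : X), ((γ • x : X) : E) = hol γ (x : E))
    (hfree : ∀ (γ : Γ) (x : X), γ • x = x → γ = 1)
    (hprop : ∀ K : Set X, IsCompact K → {γ : Γ | ∃ x ∈ K, γ • x ∈ K}.Finite)
    (hcpt : CompactSpace (MulAction.orbitRel.Quotient Γ X))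
    (H : Subgroup Γ) (hH : H.FiniteIndex) (r : ℕ) (φ : Multiplicative (Fin r → ℤ) →* Γ)
    (hφ : Function.Injective φ) (hφH : ∀ m, φ m ∈ H)
    (hcen : ∀ m, ∀ γ ∈ H, φ m * γ = γ * φ m)
    (k : ℕ) (hk : Module.finrank ℝ E < k + 1 + r)
    (z : Chain (k + 1) (MulAction.orbitRel.Quotient Γ X)) (hz : bdry k z = 0) :
    seminorm1 z = 0 := by
  let hol' : Γ →* (E →ᵃ[ℝ] E) :=
    { toFun := fun γ => (hol γ : E →ᵃ[ℝ] E)
      map_one' := by
        rw [map_one]
        rfl
      map_mul' := fun γ δ => by
        rw [map_mul]
        rfl }
  have h := Helper63.SV.main_cen hXo hXc hol' hact hfree hprop hcpt H hH r φ hφ hφH hcen k hk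
  have hnn : ∀ c : Chain (k + 2) (MulAction.orbitRel.Quotient Γ X),
      0 ≤ norm1 (z + bdry (k + 1) c) := fun c => Finset.sum_nonneg fun _ _ => abs_nonneg _
  refine le_antisymm (le_of_forall_gt fun ε hε => ?_) (Real.iInf_nonneg hnn)
  obtain ⟨c, hc⟩ := h z hz ε hε
  exact lt_of_le_of_lt (ciInf_le ⟨0, by rintro _ ⟨c, rfl⟩; exact hnn c⟩ c) hc

end Pool.Agent.Results.MP_f22a19_gt.ConvexCentral
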