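import Pool.Agent.Helper63.SV.Cab

/-!
# Closed convex affine manifolds with weakly commensurated abelian subgroups

Let `M = X / Γ` be a closed convex affine manifold: `X` is an open convex subset of the
finite-dimensional real vector space `E`, and `Γ = π₁(M)` acts on it by affine automorphisms of `E`,
freely and properly discontinuously with compact quotient. Suppose that a subgroup `H` of finite
index of `Γ` has a nontrivial abelian subgroup `A` which it weakly commensurates: for all `γ` in `H`
and `a` in `A`, some power `γ a ^ m γ⁻¹` (`m ≥ 1`) of the conjugate lies in `A`. (For instance, `A`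
is normal in `H`; so `A` can be the last nontrivial derived subgroup of a solvable normal subgroup
of `H`.) Then the simplicial volume of `M` is zero.

The proof: choose a subgroup `A'` of `A` which contains a power of each element of `A` and which
generates an algebra of matrices of the smallest possible dimension. This algebra is normalized by
`H`, and a subgroup `H'` of finite index of `H` fixes its finitely many characters. So either `A`
contains nontrivial unipotent elements, or `H'` centralizes `A'`.

If `H'` centralizes `A'`, a flow of affine maps through the square of an element of `A'` commutes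
with `H'`, so it preserves `X`. In the unipotent case, the logarithms of the unipotent elements of
`A` span a vector group `U` normalized by `H`. The points whose `U`-orbits lie in `X` form an open
convex subset `Y` of `X`, invariant under `H`. It is not empty: a suitable average of a curve in `X`
equivariant under an element of `A` is an orbit of a flow. And an open convex set with a cocompact
group of affine maps contains no smaller nonempty invariant open convex set which is invariant under
the translations along the lines of `X`; so `Y = X`, and `U` preserves `X`. In both cases the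
manifold has a covering by amenable cells of multiplicity at most `dim M`, and bounded cocycles of
degree at least `dim M` can be averaged over the cells; they vanish on cycles after iterated
barycentric subdivision.
-/

set_option autoImplicit false

open Set

namespace Pool.Agent.Results.MP_f22a19_gt.ConvexCommensurated

/-- the standard simplex of dimension `k` -/
abbrev Simplex (k : ℕ) : Type := stdSimplex ℝ (Fin (k + 1))

/-- real singular chains of degree `k` of the space `M` -/
abbrev Chain (k : ℕ) (M : Type) [TopologicalSpace M] : Type := C(Simplex k, M) →₀ ℝ

/-- the inclusion of the face opposite to the vertex `i` -/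
noncomputable def face {k : ℕ} (i : Fin (k + 2)) : C(Simplex k, Simplex (k + 1)) :=
  ⟨stdSimplex.map i.succAbove, stdSimplex.continuous_map _⟩

/-- the boundary of singular chains -/
noncomputable def bdry {M : Type} [TopologicalSpace M] (k : ℕ) : Chain (k + 1) M →ₗ[ℝ] Chain k M :=
  Finsupp.linearCombination ℝ fun σ =>
    ∑ i : Fin (k + 2), ((-1 : ℝ) ^ (i : ℕ)) • Finsupp.single (σ.comp (face i)) 1

/-- the `ℓ¹`-norm of a singular chain: the sum of the absolute values of its coefficients -/
noncomputable def norm1 {M : Type} [TopologicalSpace M] {k : ℕ} (c : Chain k M) : ℝ :=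
  ∑ σ ∈ c.support, |c σ|

/-- The `ℓ¹`-seminorm of the homology class of a cycle `z`: the infimum of the norms of the
homologous cycles. For a fundamental cycle of a closed oriented manifold this is the simplicial
volume. -/
noncomputable def seminorm1 {k : ℕ} {M : Type} [TopologicalSpace M] (z : Chain (k + 1) M) : ℝ :=
  ⨅ c : Chain (k + 2) M, norm1 (z + bdry (k + 1) c)

/-- **Vanishing for closed convex affine manifolds with a weakly commensurated abelian subgroup.**
Let `X` be an open convex subset of the finite-dimensional real vector space `E`, and let the group
`Γ` act on `X` by restrictions of affine automorphisms of `E`, freely and properly discontinuously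
with compact quotient `M = X / Γ`. Let `H` be a subgroup of finite index of `Γ`, and `A ≠ 1` an
abelian subgroup of `H` such that for all `γ` in `H` and `a` in `A` some `γ a ^ m γ⁻¹` with `m ≥ 1`
lies in `A`. Then the `ℓ¹`-seminorm of every real homology class of `M` of degree
`k + 1 ≥ dim E` is zero; in particular (`k + 1 = dim E`) the simplicial volume of `M` is zero. -/
theorem result (Γ E : Type) [Group Γ] [NormedAddCommGroup E] [NormedSpace ℝ E]
    [FiniteDimensional ℝ E] (X : Set E) (hXo : IsOpen X) (hXc : Convex ℝ X) [MulAction Γ X]
    (hol : Γ →* (E ≃ᵃ[ℝ] E)) (hact : ∀ (γ : Γ) (x : X), ((γ • x : X) : E) = hol γ (x : E))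
    (hfree : ∀ (γ : Γ) (x : X), γ • x = x → γ = 1)
    (hprop : ∀ K : Set X, IsCompact K → {γ : Γ | ∃ x ∈ K, γ • x ∈ K}.Finite)
    (hcpt : CompactSpace (MulAction.orbitRel.Quotient Γ X))
    (H : Subgroup Γ) (hH : H.FiniteIndex) (A : Subgroup Γ) (hAH : A ≤ H) (hA : A ≠ ⊥)
    (hab : ∀ a ∈ A, ∀ b ∈ A, a * b = b * a)
    (hcom : ∀ γ ∈ H, ∀ a ∈ A, ∃ m : ℕ, 0 < m ∧ γ * a ^ m * γ⁻¹ ∈ A)
    (k : ℕ) (hk : Module.finrank ℝ E ≤ k + 1)
    (z : Chain (k + 1) (MulAction.orbitRel.Quotient Γ X)) (hz : bdry k z = 0) :
    seminorm1 z = 0 := by
  let hol' : Γ →* (E →ᵃ[ℝ] E) :=
    { toFun := fun γ => (hol γ : E →ᵃ[ℝ] E)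
      map_one' := by
        rw [map_one]
        rfl
      map_mul' := fun γ δ => by
        rw [map_mul]
        rfl }
  have h := Helper63.SV.main_cvx_ab hXo hXc hol' hact hfree hprop hcpt H hH A hAH hA hab hcom k hk
  have hnn : ∀ c : Chain (k + 2) (MulAction.orbitRel.Quotient Γ X),
      0 ≤ norm1 (z + bdry (k + 1) c) := fun c => Finset.sum_nonneg fun _ _ => abs_nonneg _
  refine le_antisymm (le_of_forall_gt fun ε hε => ?_) (Real.iInf_nonneg hnn)
  obtain ⟨c, hc⟩ := h z hz ε hε
  exact lt_of_le_of_lt (ciInf_le ⟨0, by rintro _ ⟨c, rfl⟩; exact hnn c⟩ c) hc

end Pool.Agent.Results.MP_f22a19_gt.ConvexCommensurated
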