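import Pool.Agent.Helper63.SV.Cvm

/-!
# Closed convex affine manifolds with solvable holonomy along the lines

Let `M = X / Γ` be a closed convex affine manifold: `X` is an open convex subset of the
finite-dimensional real vector space `E`, and `Γ = π₁(M)` acts on it by affine automorphisms of `E`,
freely and properly discontinuously with compact quotient. Let `W` be a subspace of `E` invariant
under the linear parts of `Γ`, such that the convex set `X / W` of `E / W` contains no line, and
such that a subgroup `H` of finite index of `Γ` acts on `W` (by linear parts) through a solvable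
group. Then the `ℓ¹`-seminorm of all real homology classes of degree greater than
`dim M - dim W` is zero; in particular, if `W ≠ 0`, then the simplicial volume of `M` is zero.

One can take for `W` the space of the directions of the lines contained in `X`, for which the
condition on the lines of `X / W` holds automatically. In particular the simplicial volume of `M` is
zero if `X` contains a line but no plane.

The proof: the group `Γ` acts on `X / W` by affine automorphisms, and the action is equicontinuous,
since `X / W` contains no line. By an argument of Zassenhaus and Margulis, for each point of `X / W`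
the elements of `Γ` which displace it by a small amount lie in an amenable subgroup (commutators
contract the part of the holonomy on `E / W`, and the action on `W` is solvable; after passing to
the derived group acting trivially on `W`, the mixed part can be made small by conjugation). So `M`
has a covering by amenable cells of multiplicity at most `dim E - dim W + 1`, and bounded cocycles
of degree greater than `dim E - dim W` can be averaged over the cells; they vanish on cycles after
iterated barycentric subdivision.
-/

set_option autoImplicit false

open Set

namespace Pool.Agent.Results.MP_f22a19_gt.ConvexSolvableFibres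

/-- the standard simplex of dimension `k` -/
abbrev Simplex (k : ℕ) : Type := stdSimplex ℝ (Fin (k + 1))

/-- real singular chains of degree `k` of the space `M` -/
abbrev Chain (k : ℕ) (M : Type) [TopologicalSpace M] : Type := C(Simplex k, M) →₀ ℝ

/-- the inclusion of the face opposite to the vertex `i` -/
noncomputable def face {k : ℕ} (i : Fin (k + 2)) : C(Simplex k, Simplex (k + 1)) :=
  ⟨stdSimplex.map i.succAbove, stdSimplex.continuous_map _⟩

/-- the boundary of singular chains -/
noncomputable def bdry {M : Type} [TopologicalSpace M] (k : ℕ) : Chain (k + 1) M →ₗ[ℝ] Chain k M :=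
  Finsupp.linearCombination ℝ fun σ =>
    ∑ i : Fin (k + 2), ((-1 : ℝ) ^ (i : ℕ)) • Finsupp.single (σ.comp (face i)) 1

/-- the `ℓ¹`-norm of a singular chain: the sum of the absolute values of its coefficients -/
noncomputable def norm1 {M : Type} [TopologicalSpace M] {k : ℕ} (c : Chain k M) : ℝ :=
  ∑ σ ∈ c.support, |c σ|

/-- The `ℓ¹`-seminorm of the homology class of a cycle `z`: the infimum of the norms of the
homologous cycles. For a fundamental cycle of a closed oriented manifold this is the simplicial
volume. -/
noncomputable def seminorm1 {k : ℕ} {M : Type} [TopologicalSpace M] (z : Chain (k + 1) M) : ℝ :=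
  ⨅ c : Chain (k + 2) M, norm1 (z + bdry (k + 1) c)

/-- **Vanishing for closed convex affine manifolds with solvable holonomy along the lines.** Let
`X` be an open convex subset of the finite-dimensional real vector space `E`, and let the group `Γ`
act on `X` by restrictions of affine automorphisms of `E`, freely and properly discontinuously with
compact quotient `M = X / Γ`. Let `W` be a subspace of `E` invariant under the linear parts of `Γ`
such that `X / W` contains no line of `E / W` (`hline`: a vector `v` with
`x + ℝ v ⊆ X + W` for all `x` in `X` lies in `W`). Let `H` be a subgroup of finite index of `Γ`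
whose `q`-th derived subgroup acts trivially on `W` by linear parts. Then the `ℓ¹`-seminorm of every
real homology class of `M` of degree `k + 1 > dim E - dim W` is zero; in particular
(`k + 1 = dim E`, `W ≠ 0`) the simplicial volume of `M` is zero. -/
theorem result (Γ E : Type) [Group Γ] [NormedAddCommGroup E] [NormedSpace ℝ E]
    [FiniteDimensional ℝ E] (X : Set E) (hXo : IsOpen X) (hXc : Convex ℝ X) [MulAction Γ X]
    (hol : Γ →* (E ≃ᵃ[ℝ] E)) (hact : ∀ (γ : Γ) (x : X), ((γ • x : X) : E) = hol γ (x : E))
    (hfree : ∀ (γ : Γ) (x : X), γ • x = x → γ = 1)
    (hprop : ∀ K : Set X, IsCompact K → {γ : Γ | ∃ x ∈ K, γ • x ∈ K}.Finite)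
    (hcpt : CompactSpace (MulAction.orbitRel.Quotient Γ X))
    (W : Submodule ℝ E) (hW : ∀ γ : Γ, ∀ w ∈ W, (hol γ).linear w ∈ W)
    (hline : ∀ v : E, (∀ x ∈ X, ∀ t : ℝ, ∃ w ∈ W, x + t • v + w ∈ X) → v ∈ W)
    (H : Subgroup Γ) (hH : H.FiniteIndex) (q : ℕ)
    (hsol : ∀ γ ∈ derivedSeries H q, ∀ w ∈ W, (hol (γ : Γ)).linear w = w)
    (k : ℕ) (hk : Module.finrank ℝ E < k + 1 + Module.finrank ℝ W)
    (z : Chain (k + 1) (MulAction.orbitRel.Quotient Γ X)) (hz : bdry k z = 0) :
    seminorm1 z = 0 := by
  let hol' : Γ →* (E →ᵃ[ℝ] E) :=
    { toFun := fun γ => (hol γ : E →ᵃ[ℝ] E)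
      map_one' := by
        rw [map_one]
        rfl
      map_mul' := fun γ δ => by
        rw [map_mul]
        rfl }
  have h := Helper63.SV.main_cvx hXo hXc hol' hact hfree hprop hcpt W hW hline H hH q hsol k hk
  have hnn : ∀ c : Chain (k + 2) (MulAction.orbitRel.Quotient Γ X),
      0 ≤ norm1 (z + bdry (k + 1) c) := fun c => Finset.sum_nonneg fun _ _ => abs_nonneg _
  refine le_antisymm (le_of_forall_gt fun ε hε => ?_) (Real.iInf_nonneg hnn)
  obtain ⟨c, hc⟩ := h z hz ε hε
  exact lt_of_le_of_lt (ciInf_le ⟨0, by rintro _ ⟨c, rfl⟩; exact hnn c⟩ c) hc

end Pool.Agent.Results.MP_f22a19_gt.ConvexSolvableFibres
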